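import Mathlib

/-!
# Search of a half-line with a faulty searcher: definitions
-/

set_option autoImplicit false

noncomputable section

namespace Pool.Agent.Q228.HL

open Finset Filter Topology

/-- a trajectory, given by its turning points `t 0 = 0, t 1, t 2, ...`: the searcher moves outward
from `t (2 i)` to `t (2 i + 1)` and inward from `t (2 i + 1)` to `t (2 i + 2)`, at unit speed -/
structure IsTrajectory (t : ℕ → ℝ) : Prop where
  zero : t 0 = 0
  nonneg : ∀ i, 0 ≤ t i
  outward : ∀ i, t (2 * i) < t (2 * i + 1)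
  inward : ∀ i, t (2 * i + 2) < t (2 * i + 1)

/-- the time at which the searcher is at the turning point `t j` -/
def arrival (t : ℕ → ℝ) (j : ℕ) : ℝ := ∑ i ∈ range j, |t (i + 1) - t i|

/-- the searcher passes over `d` on its way from `t j` to `t (j + 1)` -/
def Passes (t : ℕ → ℝ) (d : ℝ) (j : ℕ) : Prop :=
  (t j < d ∧ d < t (j + 1)) ∨ (t (j + 1) < d ∧ d < t j)

open Classical in
/-- the probability that the treasure at `d` is detected on the way from `t j` to `t (j + 1)`, given
that it has not been detected before: `1` if the searcher turns at `d` at the end of this way, `p`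
if it passes over `d`, and `0` otherwise -/
def findProb (p : ℝ) (t : ℕ → ℝ) (d : ℝ) (j : ℕ) : ℝ :=
  if d = t (j + 1) then 1 else if Passes t d j then p else 0

/-- the probability that the treasure at `d` is not detected on the first `j` ways, i.e. before or
at the time `arrival t j`. If `d` is not a turning point, this is `(1 - p) ^ n`, where `n` is the
number of passes over `d` before this time (see `notFound_eq`). -/
def notFound (p : ℝ) (t : ℕ → ℝ) (d : ℝ) (j : ℕ) : ℝ := ∏ i ∈ range j, (1 - findProb p t d i)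

/-- the time at which the searcher is at `d` on its way from `t j` to `t (j + 1)` -/
def passTime (t : ℕ → ℝ) (d : ℝ) (j : ℕ) : ℝ := arrival t j + |d - t j|

/-- the contribution of the way from `t j` to `t (j + 1)` to the expected time of detection -/
def term (p : ℝ) (t : ℕ → ℝ) (d : ℝ) (j : ℕ) : ℝ :=
  notFound p t d j * findProb p t d j * passTime t d j

/-- the expected time of detection. If `d` is not a turning point, only the ways with a pass over
`d` contribute and this is the sum over `i ≥ 1` of `p (1 - p) ^ (i - 1) f_i`, where `f_i` is the time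
of the `i`-th pass over `d` (see `term_eq`). -/
def expTime (p : ℝ) (t : ℕ → ℝ) (d : ℝ) : ℝ := ∑' j, term p t d j

/-- the trajectory is feasible: for every `d ≥ 1` the treasure is detected with probability one and
the expected time of detection is finite -/
def Feasible (p : ℝ) (t : ℕ → ℝ) : Prop :=
  ∀ d : ℝ, 1 ≤ d → Tendsto (notFound p t d) atTop (𝓝 0) ∧ Summable (term p t d)

/-- the competitive ratio: the supremum over `d ≥ 1` of `p * expTime p t d / d` -/
def ratio (p : ℝ) (t : ℕ → ℝ) : ℝ := sSup ((fun d : ℝ => p * expTime p t d / d) '' Set.Ici 1)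

lemma findProb_end {p : ℝ} {t : ℕ → ℝ} {d : ℝ} {j : ℕ} (h : d = t (j + 1)) :
    findProb p t d j = 1 := if_pos h

lemma findProb_pass {p : ℝ} {t : ℕ → ℝ} {d : ℝ} {j : ℕ} (h : Passes t d j) :
    findProb p t d j = p := by
  have hne : d ≠ t (j + 1) := by
    rcases h with ⟨_, h⟩ | ⟨h, _⟩
    · exact ne_of_lt h
    · exact ne_of_gt h
  unfold findProb
  rw [if_neg hne, if_pos h]

lemma findProb_no {p : ℝ} {t : ℕ → ℝ} {d : ℝ} {j : ℕ} (h1 : d ≠ t (j + 1))
    (h2 : ¬ Passes t d j) : findProb p t d j = 0 := by
  unfold findProb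
  rw [if_neg h1, if_neg h2]

open Classical in
/-- away from the turning points, `notFound` is `(1 - p)` to the number of passes -/
lemma notFound_eq (p : ℝ) {t : ℕ → ℝ} {d : ℝ} (h : ∀ i, d ≠ t (i + 1)) (j : ℕ) :
    notFound p t d j = (1 - p) ^ ((range j).filter (Passes t d)).card := by
  induction j with
  | zero => simp [notFound]
  | succ j ih =>
    have e : notFound p t d (j + 1) = notFound p t d j * (1 - findProb p t d j) :=
      Finset.prod_range_succ _ _
    rw [e, ih, Finset.range_add_one, Finset.filter_insert]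
    by_cases hj : Passes t d j
    · rw [if_pos hj, Finset.card_insert_of_notMem (by simp), pow_succ, findProb_pass hj]
    · rw [if_neg hj, findProb_no (h j) hj, sub_zero, mul_one]

open Classical in
/-- away from the turning points, the `j`-th way contributes `p (1 - p) ^ (i - 1) f_i` if it contains
the `i`-th pass over `d`, and nothing if it contains no pass -/
lemma term_eq (p : ℝ) {t : ℕ → ℝ} {d : ℝ} (h : ∀ i, d ≠ t (i + 1)) (j : ℕ) :
    term p t d j = if Passes t d j then
      p * (1 - p) ^ ((range j).filter (Passes t d)).card * passTime t d j else 0 := by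
  unfold term
  rw [notFound_eq p h]
  split_ifs with hj
  · rw [findProb_pass hj]; ring
  · rw [findProb_no (h j) hj]; ring

lemma findProb_nonneg {p : ℝ} (hp : 0 ≤ p) (t : ℕ → ℝ) (d : ℝ) (j : ℕ) :
    0 ≤ findProb p t d j := by
  unfold findProb
  split_ifs <;> linarith

lemma findProb_le {p : ℝ} (hp : p ≤ 1) (t : ℕ → ℝ) (d : ℝ) (j : ℕ) :
    findProb p t d j ≤ 1 := by
  unfold findProb
  split_ifs <;> linarith

lemma notFound_nonneg {p : ℝ} (hp : p ≤ 1) (t : ℕ → ℝ) (d : ℝ) (j : ℕ) :
    0 ≤ notFound p t d j :=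
  Finset.prod_nonneg fun i _ => sub_nonneg.2 (findProb_le hp t d i)

lemma notFound_succ (p : ℝ) (t : ℕ → ℝ) (d : ℝ) (j : ℕ) :
    notFound p t d (j + 1) = notFound p t d j * (1 - findProb p t d j) :=
  Finset.prod_range_succ _ _

lemma notFound_anti {p : ℝ} (hp0 : 0 ≤ p) (hp : p ≤ 1) (t : ℕ → ℝ) (d : ℝ) :
    Antitone (notFound p t d) :=
  antitone_nat_of_succ_le fun j => by
    rw [notFound_succ]
    exact mul_le_of_le_one_right (notFound_nonneg hp t d j)
      (by linarith [findProb_nonneg hp0 t d j])

lemma arrival_nonneg (t : ℕ → ℝ) (j : ℕ) : 0 ≤ arrival t j :=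
  Finset.sum_nonneg fun i _ => abs_nonneg _

lemma arrival_succ (t : ℕ → ℝ) (j : ℕ) :
    arrival t (j + 1) = arrival t j + |t (j + 1) - t j| := Finset.sum_range_succ _ _

lemma term_nonneg {p : ℝ} (hp0 : 0 ≤ p) (hp : p ≤ 1) (t : ℕ → ℝ) (d : ℝ) (j : ℕ) :
    0 ≤ term p t d j := by
  unfold term passTime
  have h1 := notFound_nonneg hp t d j
  have h2 := findProb_nonneg hp0 t d j
  have h3 := arrival_nonneg t j
  have h4 := abs_nonneg (d - t j)
  positivity

/-- the contribution of eight consecutive ways, given the value `Y` of what follows -/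
def bracket (p : ℝ) (t : ℕ → ℝ) (d : ℝ) (j : ℕ) (Y : ℝ) : ℝ :=
  findProb p t d (j + 0) * passTime t d (j + 0) + (1 - findProb p t d (j + 0)) * (
  findProb p t d (j + 1) * passTime t d (j + 1) + (1 - findProb p t d (j + 1)) * (
  findProb p t d (j + 2) * passTime t d (j + 2) + (1 - findProb p t d (j + 2)) * (
  findProb p t d (j + 3) * passTime t d (j + 3) + (1 - findProb p t d (j + 3)) * (
  findProb p t d (j + 4) * passTime t d (j + 4) + (1 - findProb p t d (j + 4)) * (
  findProb p t d (j + 5) * passTime t d (j + 5) + (1 - findProb p t d (j + 5)) * (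
  findProb p t d (j + 6) * passTime t d (j + 6) + (1 - findProb p t d (j + 6)) * (
  findProb p t d (j + 7) * passTime t d (j + 7) + (1 - findProb p t d (j + 7)) * Y)))))))

lemma bracket_eq (p : ℝ) (t : ℕ → ℝ) (d : ℝ) (j : ℕ) (Y : ℝ) :
    ∑ i ∈ range (j + 8), term p t d i + notFound p t d (j + 8) * Y =
      ∑ i ∈ range j, term p t d i + notFound p t d j * bracket p t d j Y := by
  have e : ∑ i ∈ range (j + 8), term p t d i = ∑ i ∈ range j, term p t d i + term p t d (j + 0) +
      term p t d (j + 1) + term p t d (j + 2) + term p t d (j + 3) + term p t d (j + 4) +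
      term p t d (j + 5) + term p t d (j + 6) + term p t d (j + 7) := by
    simp only [show j + 8 = j + 7 + 1 by ring, show j + 7 = j + 6 + 1 by ring,
      show j + 6 = j + 5 + 1 by ring, show j + 5 = j + 4 + 1 by ring,
      show j + 4 = j + 3 + 1 by ring, show j + 3 = j + 2 + 1 by ring,
      show j + 2 = j + 1 + 1 by ring, Finset.sum_range_succ, add_zero]
  have n1 : notFound p t d (j + 1) = notFound p t d j * (1 - findProb p t d (j + 0)) :=
    notFound_succ _ _ _ _
  have n2 : notFound p t d (j + 2) = notFound p t d (j + 1) * (1 - findProb p t d (j + 1)) :=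
    notFound_succ _ _ _ _
  have n3 : notFound p t d (j + 3) = notFound p t d (j + 2) * (1 - findProb p t d (j + 2)) :=
    notFound_succ _ _ _ _
  have n4 : notFound p t d (j + 4) = notFound p t d (j + 3) * (1 - findProb p t d (j + 3)) :=
    notFound_succ _ _ _ _
  have n5 : notFound p t d (j + 5) = notFound p t d (j + 4) * (1 - findProb p t d (j + 4)) :=
    notFound_succ _ _ _ _
  have n6 : notFound p t d (j + 6) = notFound p t d (j + 5) * (1 - findProb p t d (j + 5)) :=
    notFound_succ _ _ _ _
  have n7 : notFound p t d (j + 7) = notFound p t d (j + 6) * (1 - findProb p t d (j + 6)) :=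
    notFound_succ _ _ _ _
  have n8 : notFound p t d (j + 8) = notFound p t d (j + 7) * (1 - findProb p t d (j + 7)) :=
    notFound_succ _ _ _ _
  rw [e]
  unfold term bracket
  rw [n8, n7, n6, n5, n4, n3, n2, n1, add_zero]
  ring

/-- `8` consecutive ways of the trajectory, starting at the index `j` at the time `T`, in the scale
`c` -/
def Per (t : ℕ → ℝ) (j : ℕ) (c T : ℝ) : Prop :=
  (t (j + 0) = 0 * c ∧ t (j + 0 + 1) = 17 * c ∧ t (j + 1 + 1) = 15 * c ∧ t (j + 2 + 1) = 30 * c ∧
    t (j + 3 + 1) = 17 * c ∧ t (j + 4 + 1) = 20 * c ∧ t (j + 5 + 1) = 10 * c ∧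
    t (j + 6 + 1) = 11 * c ∧ t (j + 7 + 1) = 0 * c) ∧
  (arrival t (j + 0) = T ∧ arrival t (j + 1) = T + 17 * c ∧ arrival t (j + 2) = T + 19 * c ∧
    arrival t (j + 3) = T + 34 * c ∧ arrival t (j + 4) = T + 47 * c ∧
    arrival t (j + 5) = T + 50 * c ∧ arrival t (j + 6) = T + 60 * c ∧
    arrival t (j + 7) = T + 61 * c)

/-- bound for the remaining expected time at the start of a period of scale `c`, `d ≤ 30 c` -/
def pot (c d : ℝ) : ℝ :=
  if d ≤ 10 * c then 72 * c + d / 3 else if d ≤ 11 * c then 167 / 4 * c + d / 3 else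
  if d ≤ 15 * c then 143 / 2 * c + d / 3 else if d ≤ 17 * c then 215 / 8 * c + d / 3 else
  if d ≤ 20 * c then 317 / 8 * c + d / 3 else if d ≤ 22 * c then 455 / 8 * c + d / 3 else
  287 / 4 * c + d / 3

/-- the same for the next period, with the time at its start -/
def nextPot (c d T : ℝ) : ℝ := T + 72 * c + pot (2 * c) d

lemma pot1 {c d : ℝ} (h : d ≤ 10 * c) : pot c d = 72 * c + d / 3 := if_pos h

lemma pot2 {c d : ℝ} (h : 10 * c < d) (h' : d ≤ 11 * c) : pot c d = 167 / 4 * c + d / 3 := by
  unfold pot
  rw [if_neg (by linarith), if_pos h']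

lemma pot3 {c d : ℝ} (h : 11 * c < d) (h' : d ≤ 15 * c) (hc : 0 < c) :
    pot c d = 143 / 2 * c + d / 3 := by
  unfold pot
  rw [if_neg (by linarith), if_neg (by linarith), if_pos h']

lemma pot4 {c d : ℝ} (h : 15 * c < d) (h' : d ≤ 17 * c) (hc : 0 < c) :
    pot c d = 215 / 8 * c + d / 3 := by
  unfold pot
  rw [if_neg (by linarith), if_neg (by linarith), if_neg (by linarith), if_pos h']

lemma pot5 {c d : ℝ} (h : 17 * c < d) (h' : d ≤ 20 * c) (hc : 0 < c) :
    pot c d = 317 / 8 * c + d / 3 := by
  unfold pot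
  rw [if_neg (by linarith), if_neg (by linarith), if_neg (by linarith), if_neg (by linarith),
    if_pos h']

lemma pot6 {c d : ℝ} (h : 20 * c < d) (h' : d ≤ 22 * c) (hc : 0 < c) :
    pot c d = 455 / 8 * c + d / 3 := by
  unfold pot
  rw [if_neg (by linarith), if_neg (by linarith), if_neg (by linarith), if_neg (by linarith),
    if_neg (by linarith), if_pos h']

lemma pot7 {c d : ℝ} (h : 22 * c < d) (_h' : d ≤ 30 * c) (hc : 0 < c) :
    pot c d = 287 / 4 * c + d / 3 := by
  unfold pot
  rw [if_neg (by linarith), if_neg (by linarith), if_neg (by linarith), if_neg (by linarith),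
    if_neg (by linarith), if_neg (by linarith)]

lemma nextPot1 {c d T : ℝ} (h : d ≤ 20 * c) : nextPot c d T = T + 72 * c + (144 * c + d / 3) := by
  unfold nextPot
  rw [pot1 (by linarith)]; ring

lemma nextPot2 {c d T : ℝ} (h : 20 * c < d) (h' : d ≤ 22 * c) :
    nextPot c d T = T + 72 * c + (167 / 2 * c + d / 3) := by
  unfold nextPot
  rw [pot2 (by linarith) (by linarith)]; ring

lemma nextPot3 {c d T : ℝ} (h : 22 * c < d) (_h' : d ≤ 30 * c) (hc : 0 < c) :
    nextPot c d T = T + 72 * c + (143 * c + d / 3) := by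
  unfold nextPot
  rw [pot3 (by linarith) (by linarith) (by linarith)]; ring

end Pool.Agent.Q228.HL
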