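import Pool.Agent.Q228.HL.Period

/-!
# A trajectory with ratio at most `277/80` for `p = 1/2`
-/

set_option autoImplicit false

noncomputable section

namespace Pool.Agent.Q228.HL

open Finset Filter Topology

/-- the turning points of one period -/
def sv : ℕ → ℝ
  | 0 => 0
  | 1 => 17
  | 2 => 15
  | 3 => 30
  | 4 => 17
  | 5 => 20
  | 6 => 10
  | 7 => 11
  | _ => 0

/-- the trajectory -/
def tr (j : ℕ) : ℝ := sv (j % 8) * (2 ^ (j / 8) / 16)

lemma tr_eq (k i : ℕ) (h : i < 8) : tr (8 * k + i) = sv i * (2 ^ k / 16) := by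
  unfold tr
  rw [show (8 * k + i) % 8 = i by omega, show (8 * k + i) / 8 = k by omega]

lemma tr_end (k : ℕ) : tr (8 * k + 7 + 1) = 0 := by
  unfold tr
  rw [show (8 * k + 7 + 1) % 8 = 0 by omega]
  simp [sv]

lemma tr_vals (k : ℕ) : tr (8 * k + 0) = 0 * (2 ^ k / 16) ∧
    tr (8 * k + 0 + 1) = 17 * (2 ^ k / 16) ∧
    tr (8 * k + 1 + 1) = 15 * (2 ^ k / 16) ∧ tr (8 * k + 2 + 1) = 30 * (2 ^ k / 16) ∧
    tr (8 * k + 3 + 1) = 17 * (2 ^ k / 16) ∧ tr (8 * k + 4 + 1) = 20 * (2 ^ k / 16) ∧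
    tr (8 * k + 5 + 1) = 10 * (2 ^ k / 16) ∧ tr (8 * k + 6 + 1) = 11 * (2 ^ k / 16) ∧
    tr (8 * k + 7 + 1) = 0 * (2 ^ k / 16) := by
  refine ⟨tr_eq k 0 (by norm_num), tr_eq k 1 (by norm_num), tr_eq k 2 (by norm_num),
    tr_eq k 3 (by norm_num), tr_eq k 4 (by norm_num), tr_eq k 5 (by norm_num),
    tr_eq k 6 (by norm_num), tr_eq k 7 (by norm_num), ?_⟩
  rw [tr_end, zero_mul]

/-- the time at the start of the period `k` -/
def Tk (k : ℕ) : ℝ := 72 * ((2 ^ k - 1) / 16)

lemma Tk_succ (k : ℕ) : Tk (k + 1) = Tk k + 72 * (2 ^ k / 16) := by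
  unfold Tk; rw [pow_succ]; ring

lemma arr_aux (k : ℕ) (h : arrival tr (8 * k) = Tk k) :
    (arrival tr (8 * k + 0) = Tk k ∧ arrival tr (8 * k + 1) = Tk k + 17 * (2 ^ k / 16) ∧
    arrival tr (8 * k + 2) = Tk k + 19 * (2 ^ k / 16) ∧
    arrival tr (8 * k + 3) = Tk k + 34 * (2 ^ k / 16) ∧
    arrival tr (8 * k + 4) = Tk k + 47 * (2 ^ k / 16) ∧
    arrival tr (8 * k + 5) = Tk k + 50 * (2 ^ k / 16) ∧
    arrival tr (8 * k + 6) = Tk k + 60 * (2 ^ k / 16) ∧
    arrival tr (8 * k + 7) = Tk k + 61 * (2 ^ k / 16)) ∧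
    arrival tr (8 * k + 8) = Tk k + 72 * (2 ^ k / 16) := by
  obtain ⟨e0, e1, e2, e3, e4, e5, e6, e7, e8⟩ := tr_vals k
  set c : ℝ := 2 ^ k / 16 with hcd
  have hc : 0 < c := by positivity
  have b0 : tr (8 * k) = 0 * c := e0
  have b1 : tr (8 * k + 1) = 17 * c := e1
  have b2 : tr (8 * k + 2) = 15 * c := e2
  have b3 : tr (8 * k + 3) = 30 * c := e3
  have b4 : tr (8 * k + 4) = 17 * c := e4
  have b5 : tr (8 * k + 5) = 20 * c := e5
  have b6 : tr (8 * k + 6) = 10 * c := e6
  have b7 : tr (8 * k + 7) = 11 * c := e7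
  have b8 : tr (8 * k + 8) = 0 * c := e8
  have a1 : arrival tr (8 * k + 1) = Tk k + 17 * c := by
    rw [arrival_succ, h, b1, b0, abs_of_nonneg (by linarith)]; ring
  have a2 : arrival tr (8 * k + 2) = Tk k + 19 * c := by
    have := arrival_succ tr (8 * k + 1)
    rw [a1, show 8 * k + 1 + 1 = 8 * k + 2 by ring, b2, b1, abs_of_nonpos (by linarith)] at this
    rw [this]; ring
  have a3 : arrival tr (8 * k + 3) = Tk k + 34 * c := by
    have := arrival_succ tr (8 * k + 2)
    rw [a2, show 8 * k + 2 + 1 = 8 * k + 3 by ring, b3, b2, abs_of_nonneg (by linarith)] at this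
    rw [this]; ring
  have a4 : arrival tr (8 * k + 4) = Tk k + 47 * c := by
    have := arrival_succ tr (8 * k + 3)
    rw [a3, show 8 * k + 3 + 1 = 8 * k + 4 by ring, b4, b3, abs_of_nonpos (by linarith)] at this
    rw [this]; ring
  have a5 : arrival tr (8 * k + 5) = Tk k + 50 * c := by
    have := arrival_succ tr (8 * k + 4)
    rw [a4, show 8 * k + 4 + 1 = 8 * k + 5 by ring, b5, b4, abs_of_nonneg (by linarith)] at this
    rw [this]; ring
  have a6 : arrival tr (8 * k + 6) = Tk k + 60 * c := by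
    have := arrival_succ tr (8 * k + 5)
    rw [a5, show 8 * k + 5 + 1 = 8 * k + 6 by ring, b6, b5, abs_of_nonpos (by linarith)] at this
    rw [this]; ring
  have a7 : arrival tr (8 * k + 7) = Tk k + 61 * c := by
    have := arrival_succ tr (8 * k + 6)
    rw [a6, show 8 * k + 6 + 1 = 8 * k + 7 by ring, b7, b6, abs_of_nonneg (by linarith)] at this
    rw [this]; ring
  have a8 : arrival tr (8 * k + 8) = Tk k + 72 * c := by
    have := arrival_succ tr (8 * k + 7)
    rw [a7, show 8 * k + 7 + 1 = 8 * k + 8 by ring, b8, b7, abs_of_nonpos (by linarith)] at this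
    rw [this]; ring
  exact ⟨⟨h, a1, a2, a3, a4, a5, a6, a7⟩, a8⟩

lemma arr (k : ℕ) : arrival tr (8 * k) = Tk k := by
  induction k with
  | zero => simp [arrival, Tk]
  | succ k ih =>
    rw [show 8 * (k + 1) = 8 * k + 8 by ring, (arr_aux k ih).2, Tk_succ]

lemma per_tr (k : ℕ) : Per tr (8 * k) (2 ^ k / 16) (Tk k) := ⟨tr_vals k, (arr_aux k (arr k)).1⟩

lemma pot_bound {c d : ℝ} (hc : 0 < c) (h1 : 15 * c < d) (h2 : d ≤ 30 * c) :
    72 * c + pot c d ≤ 277 / 40 * d := by
  rcases le_or_gt d (17 * c) with h | h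
  · rw [pot4 h1 h hc]; linarith
  rcases le_or_gt d (20 * c) with h' | h'
  · rw [pot5 h h' hc]; linarith
  rcases le_or_gt d (22 * c) with h'' | h''
  · rw [pot6 h' h'' hc]; linarith
  · rw [pot7 h'' h2 hc]; linarith

lemma pot_nonneg {c d : ℝ} (hc : 0 < c) (hd : 0 < d) : 0 ≤ pot c d := by
  unfold pot
  split_ifs <;> positivity

/-- the potential at the start of the period `k` -/
def Phi (k : ℕ) (d : ℝ) : ℝ :=
  if 30 * (2 ^ k / 16) < d then 277 / 40 * d else Tk k + pot (2 ^ k / 16) d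

lemma Tk_le (k : ℕ) : Tk k ≤ 72 * (2 ^ k / 16) := by
  unfold Tk
  linarith

lemma bracket_le (k : ℕ) {d : ℝ} (hd : 0 < d) :
    bracket (1 / 2) tr d (8 * k) (Phi (k + 1) d) ≤ Phi k d := by
  have hper := per_tr k
  set c : ℝ := 2 ^ k / 16 with hcd
  have hc : 0 < c := by positivity
  have hc2 : (2 : ℝ) ^ (k + 1) / 16 = 2 * c := by rw [hcd, pow_succ]; ring
  have hT : Tk (k + 1) = Tk k + 72 * c := Tk_succ k
  have hT2 := Tk_le (k + 1)
  rw [hc2] at hT2
  rcases lt_or_ge (30 * c) d with h30 | h30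
  · rw [perOut hc hper h30]
    have hP : Phi k d = 277 / 40 * d := by unfold Phi; rw [← hcd, if_pos h30]
    rw [hP]
    unfold Phi
    rw [hc2]
    split_ifs with h
    · exact le_rfl
    · have := pot_bound (c := 2 * c) (by linarith) (by linarith) (not_lt.1 h)
      linarith
  · have hP : Phi k d = Tk k + pot c d := by
      unfold Phi; rw [← hcd, if_neg (not_lt.2 h30)]
    have hN : Phi (k + 1) d = nextPot c d (Tk k) := by
      unfold Phi nextPot
      rw [hc2, if_neg (by linarith), hT]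
    rw [hP, hN]
    rcases lt_trichotomy d (10 * c) with h | h | h
    · exact perL1 hc hper hd h
    · exact perL2 hc hper h
    rcases lt_trichotomy d (11 * c) with h' | h' | h'
    · exact perL3 hc hper h h'
    · exact perL4 hc hper h'
    rcases lt_trichotomy d (15 * c) with g | g | g
    · exact perL5 hc hper h' g
    · exact perL6 hc hper g
    rcases lt_trichotomy d (17 * c) with g' | g' | g'
    · exact perL7 hc hper g g'
    · exact perL8 hc hper g'
    rcases lt_trichotomy d (20 * c) with f | f | f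
    · exact perL9 hc hper g' f
    · exact perL10 hc hper f
    rcases le_or_gt d (22 * c) with f' | f'
    · exact perL11 hc hper f f'
    rcases lt_or_eq_of_le h30 with w | w
    · exact perL12 hc hper f' w
    · exact perL13 hc hper w

lemma main_bound {d : ℝ} (hd : 1 ≤ d) (k : ℕ) :
    ∑ i ∈ range (8 * k), term (1 / 2) tr d i + notFound (1 / 2) tr d (8 * k) * Phi k d ≤
      277 / 40 * d := by
  induction k with
  | zero =>
    have h0 : notFound (1 / 2) tr d (8 * 0) = 1 := by simp [notFound]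
    rw [h0, mul_zero, Finset.sum_range_zero, zero_add, one_mul]
    unfold Phi
    split_ifs with h
    · exact le_rfl
    · rw [pow_zero] at h ⊢
      have := pot_bound (c := 1 / 16) (by norm_num) (by linarith) (not_lt.1 h)
      have h2 : Tk 0 = 0 := by simp [Tk]
      rw [h2]
      linarith
  | succ k ih =>
    rw [show 8 * (k + 1) = 8 * k + 8 by ring, bracket_eq]
    have h1 := bracket_le k (d := d) (by linarith)
    have h2 := notFound_nonneg (p := 1 / 2) (by norm_num) tr d (8 * k)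
    have h3 := mul_le_mul_of_nonneg_left h1 h2
    linarith

lemma partial_le {d : ℝ} (hd : 1 ≤ d) (n : ℕ) :
    ∑ i ∈ range n, term (1 / 2) tr d i ≤ 277 / 40 * d := by
  have h1 := main_bound hd n
  have h2 : ∑ i ∈ range n, term (1 / 2) tr d i ≤ ∑ i ∈ range (8 * n), term (1 / 2) tr d i :=
    Finset.sum_le_sum_of_subset_of_nonneg (Finset.range_mono (by omega))
      fun i _ _ => term_nonneg (by norm_num) (by norm_num) tr d i
  have h3 := notFound_nonneg (p := 1 / 2) (by norm_num) tr d (8 * n)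
  have h4 : 0 ≤ Phi n d := by
    unfold Phi
    split_ifs
    · positivity
    · have h5 := pot_nonneg (c := 2 ^ n / 16) (d := d) (by positivity) (by linarith)
      have h6 : 0 ≤ Tk n := by
        unfold Tk
        have : (1 : ℝ) ≤ 2 ^ n := one_le_pow₀ (by norm_num)
        linarith
      linarith
  have h5 := mul_nonneg h3 h4
  linarith

lemma summable_term {d : ℝ} (hd : 1 ≤ d) : Summable (term (1 / 2) tr d) :=
  summable_of_sum_range_le (fun i => term_nonneg (by norm_num) (by norm_num) tr d i)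
    (partial_le hd)

lemma expTime_le {d : ℝ} (hd : 1 ≤ d) : expTime (1 / 2) tr d ≤ 277 / 40 * d :=
  Real.tsum_le_of_sum_range_le (fun i => term_nonneg (by norm_num) (by norm_num) tr d i)
    (partial_le hd)

lemma expTime_nonneg (d : ℝ) : 0 ≤ expTime (1 / 2) tr d :=
  tsum_nonneg fun i => term_nonneg (by norm_num) (by norm_num) tr d i

lemma notFound_tendsto {d : ℝ} (hd : 1 ≤ d) : Tendsto (notFound (1 / 2) tr d) atTop (𝓝 0) := by
  rw [Metric.tendsto_atTop]
  intro ε hε
  obtain ⟨k, hk⟩ := pow_unbounded_of_one_lt (d + 277 / 40 * d / ε + 1) (one_lt_two (α := ℝ))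
  refine ⟨8 * k, fun n hn => ?_⟩
  have h0 := notFound_nonneg (p := 1 / 2) (by norm_num) tr d n
  rw [Real.dist_eq, sub_zero, abs_of_nonneg h0]
  refine lt_of_le_of_lt (notFound_anti (by norm_num) (by norm_num) tr d hn) ?_
  have h1 := main_bound hd k
  have hq : 0 ≤ 277 / 40 * d / ε := by positivity
  have h2 : Phi k d = Tk k + pot (2 ^ k / 16) d := by
    unfold Phi
    rw [if_neg]
    push Not
    linarith
  have h3 := pot_nonneg (c := 2 ^ k / 16) (d := d) (by positivity) (by linarith)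
  have h4 : 277 / 40 * d / ε < Tk k := by
    unfold Tk
    linarith
  have h5 : 0 ≤ ∑ i ∈ range (8 * k), term (1 / 2) tr d i :=
    Finset.sum_nonneg fun i _ => term_nonneg (by norm_num) (by norm_num) tr d i
  have h6 := notFound_nonneg (p := 1 / 2) (by norm_num) tr d (8 * k)
  by_contra hcon
  push Not at hcon
  have h7 : ε * (277 / 40 * d / ε) = 277 / 40 * d := by field_simp
  have h8 : ε * (277 / 40 * d / ε) < ε * Tk k := mul_lt_mul_of_pos_left h4 hε
  have h9 : ε * Tk k ≤ notFound (1 / 2) tr d (8 * k) * Phi k d := by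
    rw [h2]
    exact mul_le_mul hcon (by linarith) (by linarith) h6
  linarith

theorem isTrajectory_tr : IsTrajectory tr := by
  have hsv : ∀ i, 0 ≤ sv i := by
    intro i
    unfold sv
    split <;> norm_num
  refine ⟨by simp [tr, sv], fun i => ?_, fun i => ?_, fun i => ?_⟩
  · unfold tr
    have := hsv (i % 8)
    positivity
  · obtain ⟨k, hk⟩ : ∃ k, k = i / 4 := ⟨_, rfl⟩
    obtain ⟨e0, e1, e2, e3, e4, e5, e6, e7, e8⟩ := tr_vals k
    have hc : (0 : ℝ) < 2 ^ k / 16 := by positivity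
    have h4 : i = 4 * k ∨ i = 4 * k + 1 ∨ i = 4 * k + 2 ∨ i = 4 * k + 3 := by omega
    rcases h4 with rfl | rfl | rfl | rfl
    · rw [show 2 * (4 * k) + 1 = 8 * k + 0 + 1 by ring, show 2 * (4 * k) = 8 * k + 0 by ring,
        e0, e1]
      linarith
    · rw [show 2 * (4 * k + 1) + 1 = 8 * k + 2 + 1 by ring,
        show 2 * (4 * k + 1) = 8 * k + 1 + 1 by ring, e2, e3]
      linarith
    · rw [show 2 * (4 * k + 2) + 1 = 8 * k + 4 + 1 by ring,
        show 2 * (4 * k + 2) = 8 * k + 3 + 1 by ring, e4, e5]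
      linarith
    · rw [show 2 * (4 * k + 3) + 1 = 8 * k + 6 + 1 by ring,
        show 2 * (4 * k + 3) = 8 * k + 5 + 1 by ring, e6, e7]
      linarith
  · obtain ⟨k, hk⟩ : ∃ k, k = i / 4 := ⟨_, rfl⟩
    obtain ⟨e0, e1, e2, e3, e4, e5, e6, e7, e8⟩ := tr_vals k
    have hc : (0 : ℝ) < 2 ^ k / 16 := by positivity
    have h4 : i = 4 * k ∨ i = 4 * k + 1 ∨ i = 4 * k + 2 ∨ i = 4 * k + 3 := by omega
    rcases h4 with rfl | rfl | rfl | rfl
    · rw [show 2 * (4 * k) + 2 = 8 * k + 1 + 1 by ring, show 2 * (4 * k) + 1 = 8 * k + 0 + 1 by ring,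
        e1, e2]
      linarith
    · rw [show 2 * (4 * k + 1) + 2 = 8 * k + 3 + 1 by ring,
        show 2 * (4 * k + 1) + 1 = 8 * k + 2 + 1 by ring, e3, e4]
      linarith
    · rw [show 2 * (4 * k + 2) + 2 = 8 * k + 5 + 1 by ring,
        show 2 * (4 * k + 2) + 1 = 8 * k + 4 + 1 by ring, e5, e6]
      linarith
    · rw [show 2 * (4 * k + 3) + 2 = 8 * k + 7 + 1 by ring,
        show 2 * (4 * k + 3) + 1 = 8 * k + 6 + 1 by ring, e7, e8]
      linarith

theorem feasible_tr : Feasible (1 / 2) tr := fun _ hd => ⟨notFound_tendsto hd, summable_term hd⟩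

end Pool.Agent.Q228.HL
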