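import Pool.Agent.Q228.HL.Def

/-!
# One period of the trajectory (generated)
-/

set_option autoImplicit false

namespace Pool.Agent.Q228.HL

lemma perL1 {t : ℕ → ℝ} {j : ℕ} {c d T : ℝ} (hc : 0 < c) (ht : Per t j c T) (h1 : 0 < d) (h2 : d < 10 * c) :
    bracket (1 / 2) t d j (nextPot c d T) ≤ T + pot c d := by
  obtain ⟨⟨e0, e1, e2, e3, e4, e5, e6, e7, e8⟩, ⟨s0, s1, s2, s3, s4, s5, s6, s7⟩⟩ := ht
  have b0 : t (j + 0) = 0 * c := e0
  have b1 : t (j + 1) = 17 * c := e1
  have b2 : t (j + 2) = 15 * c := e2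
  have b3 : t (j + 3) = 30 * c := e3
  have b4 : t (j + 4) = 17 * c := e4
  have b5 : t (j + 5) = 20 * c := e5
  have b6 : t (j + 6) = 10 * c := e6
  have b7 : t (j + 7) = 11 * c := e7
  have f0 : findProb (1 / 2) t d (j + 0) = 1 / 2 :=
    findProb_pass (Or.inl ⟨by rw [b0]; linarith, by rw [e1]; linarith⟩)
  have g0 : passTime t d (j + 0) = T + 0 * c + (d - 0 * c) := by
    unfold passTime; rw [s0, b0, abs_of_nonneg (by linarith)]; try ring
  have f1 : findProb (1 / 2) t d (j + 1) = 0 := by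
    refine findProb_no ?_ ?_
    · rw [e2]; intro h; linarith
    · unfold Passes
      rw [b1, e2]; rintro (⟨h3, h4⟩ | ⟨h3, h4⟩) <;> linarith
  have f2 : findProb (1 / 2) t d (j + 2) = 0 := by
    refine findProb_no ?_ ?_
    · rw [e3]; intro h; linarith
    · unfold Passes
      rw [b2, e3]; rintro (⟨h3, h4⟩ | ⟨h3, h4⟩) <;> linarith
  have f3 : findProb (1 / 2) t d (j + 3) = 0 := by
    refine findProb_no ?_ ?_
    · rw [e4]; intro h; linarith
    · unfold Passes
      rw [b3, e4]; rintro (⟨h3, h4⟩ | ⟨h3, h4⟩) <;> linarith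
  have f4 : findProb (1 / 2) t d (j + 4) = 0 := by
    refine findProb_no ?_ ?_
    · rw [e5]; intro h; linarith
    · unfold Passes
      rw [b4, e5]; rintro (⟨h3, h4⟩ | ⟨h3, h4⟩) <;> linarith
  have f5 : findProb (1 / 2) t d (j + 5) = 0 := by
    refine findProb_no ?_ ?_
    · rw [e6]; intro h; linarith
    · unfold Passes
      rw [b5, e6]; rintro (⟨h3, h4⟩ | ⟨h3, h4⟩) <;> linarith
  have f6 : findProb (1 / 2) t d (j + 6) = 0 := by
    refine findProb_no ?_ ?_
    · rw [e7]; intro h; linarith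
    · unfold Passes
      rw [b6, e7]; rintro (⟨h3, h4⟩ | ⟨h3, h4⟩) <;> linarith
  have f7 : findProb (1 / 2) t d (j + 7) = 1 / 2 :=
    findProb_pass (Or.inr ⟨by rw [e8]; linarith, by rw [b7]; linarith⟩)
  have g7 : passTime t d (j + 7) = T + 61 * c + (11 * c - d) := by
    unfold passTime; rw [s7, b7, abs_of_nonpos (by linarith)]; try ring
  have hp := pot1 (c := c) (d := d) (by linarith)
  have hn := nextPot1 (c := c) (d := d) (T := T) (by linarith)
  unfold bracket
  rw [hp, f0, g0, f1, f2, f3, f4, f5, f6, f7, g7, hn]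
  norm_num
  try linarith

lemma perL2 {t : ℕ → ℝ} {j : ℕ} {c d T : ℝ} (hc : 0 < c) (ht : Per t j c T) (h1 : d = 10 * c) :
    bracket (1 / 2) t d j (nextPot c d T) ≤ T + pot c d := by
  obtain ⟨⟨e0, e1, e2, e3, e4, e5, e6, e7, e8⟩, ⟨s0, s1, s2, s3, s4, s5, s6, s7⟩⟩ := ht
  have b0 : t (j + 0) = 0 * c := e0
  have b1 : t (j + 1) = 17 * c := e1
  have b2 : t (j + 2) = 15 * c := e2
  have b3 : t (j + 3) = 30 * c := e3
  have b4 : t (j + 4) = 17 * c := e4
  have b5 : t (j + 5) = 20 * c := e5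
  have b6 : t (j + 6) = 10 * c := e6
  have b7 : t (j + 7) = 11 * c := e7
  have f0 : findProb (1 / 2) t d (j + 0) = 1 / 2 :=
    findProb_pass (Or.inl ⟨by rw [b0]; linarith, by rw [e1]; linarith⟩)
  have g0 : passTime t d (j + 0) = T + 0 * c + (d - 0 * c) := by
    unfold passTime; rw [s0, b0, abs_of_nonneg (by linarith)]; try ring
  have f1 : findProb (1 / 2) t d (j + 1) = 0 := by
    refine findProb_no ?_ ?_
    · rw [e2]; intro h; linarith
    · unfold Passes
      rw [b1, e2]; rintro (⟨h3, h4⟩ | ⟨h3, h4⟩) <;> linarith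
  have f2 : findProb (1 / 2) t d (j + 2) = 0 := by
    refine findProb_no ?_ ?_
    · rw [e3]; intro h; linarith
    · unfold Passes
      rw [b2, e3]; rintro (⟨h3, h4⟩ | ⟨h3, h4⟩) <;> linarith
  have f3 : findProb (1 / 2) t d (j + 3) = 0 := by
    refine findProb_no ?_ ?_
    · rw [e4]; intro h; linarith
    · unfold Passes
      rw [b3, e4]; rintro (⟨h3, h4⟩ | ⟨h3, h4⟩) <;> linarith
  have f4 : findProb (1 / 2) t d (j + 4) = 0 := by
    refine findProb_no ?_ ?_
    · rw [e5]; intro h; linarith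
    · unfold Passes
      rw [b4, e5]; rintro (⟨h3, h4⟩ | ⟨h3, h4⟩) <;> linarith
  have f5 : findProb (1 / 2) t d (j + 5) = 1 := findProb_end (by rw [e6]; linarith)
  have g5 : passTime t d (j + 5) = T + 50 * c + (20 * c - d) := by
    unfold passTime; rw [s5, b5, abs_of_nonpos (by linarith)]; try ring
  have hp := pot1 (c := c) (d := d) (by linarith)
  unfold bracket
  rw [hp, f0, g0, f1, f2, f3, f4, f5, g5]
  norm_num
  try linarith

lemma perL3 {t : ℕ → ℝ} {j : ℕ} {c d T : ℝ} (hc : 0 < c) (ht : Per t j c T) (h1 : 10 * c < d) (h2 : d < 11 * c) :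
    bracket (1 / 2) t d j (nextPot c d T) ≤ T + pot c d := by
  obtain ⟨⟨e0, e1, e2, e3, e4, e5, e6, e7, e8⟩, ⟨s0, s1, s2, s3, s4, s5, s6, s7⟩⟩ := ht
  have b0 : t (j + 0) = 0 * c := e0
  have b1 : t (j + 1) = 17 * c := e1
  have b2 : t (j + 2) = 15 * c := e2
  have b3 : t (j + 3) = 30 * c := e3
  have b4 : t (j + 4) = 17 * c := e4
  have b5 : t (j + 5) = 20 * c := e5
  have b6 : t (j + 6) = 10 * c := e6
  have b7 : t (j + 7) = 11 * c := e7
  have f0 : findProb (1 / 2) t d (j + 0) = 1 / 2 :=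
    findProb_pass (Or.inl ⟨by rw [b0]; linarith, by rw [e1]; linarith⟩)
  have g0 : passTime t d (j + 0) = T + 0 * c + (d - 0 * c) := by
    unfold passTime; rw [s0, b0, abs_of_nonneg (by linarith)]; try ring
  have f1 : findProb (1 / 2) t d (j + 1) = 0 := by
    refine findProb_no ?_ ?_
    · rw [e2]; intro h; linarith
    · unfold Passes
      rw [b1, e2]; rintro (⟨h3, h4⟩ | ⟨h3, h4⟩) <;> linarith
  have f2 : findProb (1 / 2) t d (j + 2) = 0 := by
    refine findProb_no ?_ ?_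
    · rw [e3]; intro h; linarith
    · unfold Passes
      rw [b2, e3]; rintro (⟨h3, h4⟩ | ⟨h3, h4⟩) <;> linarith
  have f3 : findProb (1 / 2) t d (j + 3) = 0 := by
    refine findProb_no ?_ ?_
    · rw [e4]; intro h; linarith
    · unfold Passes
      rw [b3, e4]; rintro (⟨h3, h4⟩ | ⟨h3, h4⟩) <;> linarith
  have f4 : findProb (1 / 2) t d (j + 4) = 0 := by
    refine findProb_no ?_ ?_
    · rw [e5]; intro h; linarith
    · unfold Passes
      rw [b4, e5]; rintro (⟨h3, h4⟩ | ⟨h3, h4⟩) <;> linarith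
  have f5 : findProb (1 / 2) t d (j + 5) = 1 / 2 :=
    findProb_pass (Or.inr ⟨by rw [e6]; linarith, by rw [b5]; linarith⟩)
  have g5 : passTime t d (j + 5) = T + 50 * c + (20 * c - d) := by
    unfold passTime; rw [s5, b5, abs_of_nonpos (by linarith)]; try ring
  have f6 : findProb (1 / 2) t d (j + 6) = 1 / 2 :=
    findProb_pass (Or.inl ⟨by rw [b6]; linarith, by rw [e7]; linarith⟩)
  have g6 : passTime t d (j + 6) = T + 60 * c + (d - 10 * c) := by
    unfold passTime; rw [s6, b6, abs_of_nonneg (by linarith)]; try ring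
  have f7 : findProb (1 / 2) t d (j + 7) = 1 / 2 :=
    findProb_pass (Or.inr ⟨by rw [e8]; linarith, by rw [b7]; linarith⟩)
  have g7 : passTime t d (j + 7) = T + 61 * c + (11 * c - d) := by
    unfold passTime; rw [s7, b7, abs_of_nonpos (by linarith)]; try ring
  have hp := pot2 (c := c) (d := d) (by linarith) (by linarith)
  have hn := nextPot1 (c := c) (d := d) (T := T) (by linarith)
  unfold bracket
  rw [hp, f0, g0, f1, f2, f3, f4, f5, g5, f6, g6, f7, g7, hn]
  norm_num
  try linarith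

lemma perL4 {t : ℕ → ℝ} {j : ℕ} {c d T : ℝ} (hc : 0 < c) (ht : Per t j c T) (h1 : d = 11 * c) :
    bracket (1 / 2) t d j (nextPot c d T) ≤ T + pot c d := by
  obtain ⟨⟨e0, e1, e2, e3, e4, e5, e6, e7, e8⟩, ⟨s0, s1, s2, s3, s4, s5, s6, s7⟩⟩ := ht
  have b0 : t (j + 0) = 0 * c := e0
  have b1 : t (j + 1) = 17 * c := e1
  have b2 : t (j + 2) = 15 * c := e2
  have b3 : t (j + 3) = 30 * c := e3
  have b4 : t (j + 4) = 17 * c := e4
  have b5 : t (j + 5) = 20 * c := e5
  have b6 : t (j + 6) = 10 * c := e6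
  have b7 : t (j + 7) = 11 * c := e7
  have f0 : findProb (1 / 2) t d (j + 0) = 1 / 2 :=
    findProb_pass (Or.inl ⟨by rw [b0]; linarith, by rw [e1]; linarith⟩)
  have g0 : passTime t d (j + 0) = T + 0 * c + (d - 0 * c) := by
    unfold passTime; rw [s0, b0, abs_of_nonneg (by linarith)]; try ring
  have f1 : findProb (1 / 2) t d (j + 1) = 0 := by
    refine findProb_no ?_ ?_
    · rw [e2]; intro h; linarith
    · unfold Passes
      rw [b1, e2]; rintro (⟨h3, h4⟩ | ⟨h3, h4⟩) <;> linarith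
  have f2 : findProb (1 / 2) t d (j + 2) = 0 := by
    refine findProb_no ?_ ?_
    · rw [e3]; intro h; linarith
    · unfold Passes
      rw [b2, e3]; rintro (⟨h3, h4⟩ | ⟨h3, h4⟩) <;> linarith
  have f3 : findProb (1 / 2) t d (j + 3) = 0 := by
    refine findProb_no ?_ ?_
    · rw [e4]; intro h; linarith
    · unfold Passes
      rw [b3, e4]; rintro (⟨h3, h4⟩ | ⟨h3, h4⟩) <;> linarith
  have f4 : findProb (1 / 2) t d (j + 4) = 0 := by
    refine findProb_no ?_ ?_
    · rw [e5]; intro h; linarith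
    · unfold Passes
      rw [b4, e5]; rintro (⟨h3, h4⟩ | ⟨h3, h4⟩) <;> linarith
  have f5 : findProb (1 / 2) t d (j + 5) = 1 / 2 :=
    findProb_pass (Or.inr ⟨by rw [e6]; linarith, by rw [b5]; linarith⟩)
  have g5 : passTime t d (j + 5) = T + 50 * c + (20 * c - d) := by
    unfold passTime; rw [s5, b5, abs_of_nonpos (by linarith)]; try ring
  have f6 : findProb (1 / 2) t d (j + 6) = 1 := findProb_end (by rw [e7]; linarith)
  have g6 : passTime t d (j + 6) = T + 60 * c + (d - 10 * c) := by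
    unfold passTime; rw [s6, b6, abs_of_nonneg (by linarith)]; try ring
  have hp := pot2 (c := c) (d := d) (by linarith) (by linarith)
  unfold bracket
  rw [hp, f0, g0, f1, f2, f3, f4, f5, g5, f6, g6]
  norm_num
  try linarith

lemma perL5 {t : ℕ → ℝ} {j : ℕ} {c d T : ℝ} (hc : 0 < c) (ht : Per t j c T) (h1 : 11 * c < d) (h2 : d < 15 * c) :
    bracket (1 / 2) t d j (nextPot c d T) ≤ T + pot c d := by
  obtain ⟨⟨e0, e1, e2, e3, e4, e5, e6, e7, e8⟩, ⟨s0, s1, s2, s3, s4, s5, s6, s7⟩⟩ := ht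
  have b0 : t (j + 0) = 0 * c := e0
  have b1 : t (j + 1) = 17 * c := e1
  have b2 : t (j + 2) = 15 * c := e2
  have b3 : t (j + 3) = 30 * c := e3
  have b4 : t (j + 4) = 17 * c := e4
  have b5 : t (j + 5) = 20 * c := e5
  have b6 : t (j + 6) = 10 * c := e6
  have b7 : t (j + 7) = 11 * c := e7
  have f0 : findProb (1 / 2) t d (j + 0) = 1 / 2 :=
    findProb_pass (Or.inl ⟨by rw [b0]; linarith, by rw [e1]; linarith⟩)
  have g0 : passTime t d (j + 0) = T + 0 * c + (d - 0 * c) := by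
    unfold passTime; rw [s0, b0, abs_of_nonneg (by linarith)]; try ring
  have f1 : findProb (1 / 2) t d (j + 1) = 0 := by
    refine findProb_no ?_ ?_
    · rw [e2]; intro h; linarith
    · unfold Passes
      rw [b1, e2]; rintro (⟨h3, h4⟩ | ⟨h3, h4⟩) <;> linarith
  have f2 : findProb (1 / 2) t d (j + 2) = 0 := by
    refine findProb_no ?_ ?_
    · rw [e3]; intro h; linarith
    · unfold Passes
      rw [b2, e3]; rintro (⟨h3, h4⟩ | ⟨h3, h4⟩) <;> linarith
  have f3 : findProb (1 / 2) t d (j + 3) = 0 := by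
    refine findProb_no ?_ ?_
    · rw [e4]; intro h; linarith
    · unfold Passes
      rw [b3, e4]; rintro (⟨h3, h4⟩ | ⟨h3, h4⟩) <;> linarith
  have f4 : findProb (1 / 2) t d (j + 4) = 0 := by
    refine findProb_no ?_ ?_
    · rw [e5]; intro h; linarith
    · unfold Passes
      rw [b4, e5]; rintro (⟨h3, h4⟩ | ⟨h3, h4⟩) <;> linarith
  have f5 : findProb (1 / 2) t d (j + 5) = 1 / 2 :=
    findProb_pass (Or.inr ⟨by rw [e6]; linarith, by rw [b5]; linarith⟩)
  have g5 : passTime t d (j + 5) = T + 50 * c + (20 * c - d) := by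
    unfold passTime; rw [s5, b5, abs_of_nonpos (by linarith)]; try ring
  have f6 : findProb (1 / 2) t d (j + 6) = 0 := by
    refine findProb_no ?_ ?_
    · rw [e7]; intro h; linarith
    · unfold Passes
      rw [b6, e7]; rintro (⟨h3, h4⟩ | ⟨h3, h4⟩) <;> linarith
  have f7 : findProb (1 / 2) t d (j + 7) = 0 := by
    refine findProb_no ?_ ?_
    · rw [e8]; intro h; linarith
    · unfold Passes
      rw [b7, e8]; rintro (⟨h3, h4⟩ | ⟨h3, h4⟩) <;> linarith
  have hp := pot3 (c := c) (d := d) (by linarith) (by linarith) hc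
  have hn := nextPot1 (c := c) (d := d) (T := T) (by linarith)
  unfold bracket
  rw [hp, f0, g0, f1, f2, f3, f4, f5, g5, f6, f7, hn]
  norm_num
  try linarith

lemma perL6 {t : ℕ → ℝ} {j : ℕ} {c d T : ℝ} (hc : 0 < c) (ht : Per t j c T) (h1 : d = 15 * c) :
    bracket (1 / 2) t d j (nextPot c d T) ≤ T + pot c d := by
  obtain ⟨⟨e0, e1, e2, e3, e4, e5, e6, e7, e8⟩, ⟨s0, s1, s2, s3, s4, s5, s6, s7⟩⟩ := ht
  have b0 : t (j + 0) = 0 * c := e0
  have b1 : t (j + 1) = 17 * c := e1
  have b2 : t (j + 2) = 15 * c := e2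
  have b3 : t (j + 3) = 30 * c := e3
  have b4 : t (j + 4) = 17 * c := e4
  have b5 : t (j + 5) = 20 * c := e5
  have b6 : t (j + 6) = 10 * c := e6
  have b7 : t (j + 7) = 11 * c := e7
  have f0 : findProb (1 / 2) t d (j + 0) = 1 / 2 :=
    findProb_pass (Or.inl ⟨by rw [b0]; linarith, by rw [e1]; linarith⟩)
  have g0 : passTime t d (j + 0) = T + 0 * c + (d - 0 * c) := by
    unfold passTime; rw [s0, b0, abs_of_nonneg (by linarith)]; try ring
  have f1 : findProb (1 / 2) t d (j + 1) = 1 := findProb_end (by rw [e2]; linarith)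
  have g1 : passTime t d (j + 1) = T + 17 * c + (17 * c - d) := by
    unfold passTime; rw [s1, b1, abs_of_nonpos (by linarith)]; try ring
  have hp := pot3 (c := c) (d := d) (by linarith) (by linarith) hc
  unfold bracket
  rw [hp, f0, g0, f1, g1]
  norm_num
  try linarith

lemma perL7 {t : ℕ → ℝ} {j : ℕ} {c d T : ℝ} (hc : 0 < c) (ht : Per t j c T) (h1 : 15 * c < d) (h2 : d < 17 * c) :
    bracket (1 / 2) t d j (nextPot c d T) ≤ T + pot c d := by
  obtain ⟨⟨e0, e1, e2, e3, e4, e5, e6, e7, e8⟩, ⟨s0, s1, s2, s3, s4, s5, s6, s7⟩⟩ := ht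
  have b0 : t (j + 0) = 0 * c := e0
  have b1 : t (j + 1) = 17 * c := e1
  have b2 : t (j + 2) = 15 * c := e2
  have b3 : t (j + 3) = 30 * c := e3
  have b4 : t (j + 4) = 17 * c := e4
  have b5 : t (j + 5) = 20 * c := e5
  have b6 : t (j + 6) = 10 * c := e6
  have b7 : t (j + 7) = 11 * c := e7
  have f0 : findProb (1 / 2) t d (j + 0) = 1 / 2 :=
    findProb_pass (Or.inl ⟨by rw [b0]; linarith, by rw [e1]; linarith⟩)
  have g0 : passTime t d (j + 0) = T + 0 * c + (d - 0 * c) := by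
    unfold passTime; rw [s0, b0, abs_of_nonneg (by linarith)]; try ring
  have f1 : findProb (1 / 2) t d (j + 1) = 1 / 2 :=
    findProb_pass (Or.inr ⟨by rw [e2]; linarith, by rw [b1]; linarith⟩)
  have g1 : passTime t d (j + 1) = T + 17 * c + (17 * c - d) := by
    unfold passTime; rw [s1, b1, abs_of_nonpos (by linarith)]; try ring
  have f2 : findProb (1 / 2) t d (j + 2) = 1 / 2 :=
    findProb_pass (Or.inl ⟨by rw [b2]; linarith, by rw [e3]; linarith⟩)
  have g2 : passTime t d (j + 2) = T + 19 * c + (d - 15 * c) := by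
    unfold passTime; rw [s2, b2, abs_of_nonneg (by linarith)]; try ring
  have f3 : findProb (1 / 2) t d (j + 3) = 0 := by
    refine findProb_no ?_ ?_
    · rw [e4]; intro h; linarith
    · unfold Passes
      rw [b3, e4]; rintro (⟨h3, h4⟩ | ⟨h3, h4⟩) <;> linarith
  have f4 : findProb (1 / 2) t d (j + 4) = 0 := by
    refine findProb_no ?_ ?_
    · rw [e5]; intro h; linarith
    · unfold Passes
      rw [b4, e5]; rintro (⟨h3, h4⟩ | ⟨h3, h4⟩) <;> linarith
  have f5 : findProb (1 / 2) t d (j + 5) = 1 / 2 :=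
    findProb_pass (Or.inr ⟨by rw [e6]; linarith, by rw [b5]; linarith⟩)
  have g5 : passTime t d (j + 5) = T + 50 * c + (20 * c - d) := by
    unfold passTime; rw [s5, b5, abs_of_nonpos (by linarith)]; try ring
  have f6 : findProb (1 / 2) t d (j + 6) = 0 := by
    refine findProb_no ?_ ?_
    · rw [e7]; intro h; linarith
    · unfold Passes
      rw [b6, e7]; rintro (⟨h3, h4⟩ | ⟨h3, h4⟩) <;> linarith
  have f7 : findProb (1 / 2) t d (j + 7) = 0 := by
    refine findProb_no ?_ ?_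
    · rw [e8]; intro h; linarith
    · unfold Passes
      rw [b7, e8]; rintro (⟨h3, h4⟩ | ⟨h3, h4⟩) <;> linarith
  have hp := pot4 (c := c) (d := d) (by linarith) (by linarith) hc
  have hn := nextPot1 (c := c) (d := d) (T := T) (by linarith)
  unfold bracket
  rw [hp, f0, g0, f1, g1, f2, g2, f3, f4, f5, g5, f6, f7, hn]
  norm_num
  try linarith

lemma perL8 {t : ℕ → ℝ} {j : ℕ} {c d T : ℝ} (hc : 0 < c) (ht : Per t j c T) (h1 : d = 17 * c) :
    bracket (1 / 2) t d j (nextPot c d T) ≤ T + pot c d := by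
  obtain ⟨⟨e0, e1, e2, e3, e4, e5, e6, e7, e8⟩, ⟨s0, s1, s2, s3, s4, s5, s6, s7⟩⟩ := ht
  have b0 : t (j + 0) = 0 * c := e0
  have b1 : t (j + 1) = 17 * c := e1
  have b2 : t (j + 2) = 15 * c := e2
  have b3 : t (j + 3) = 30 * c := e3
  have b4 : t (j + 4) = 17 * c := e4
  have b5 : t (j + 5) = 20 * c := e5
  have b6 : t (j + 6) = 10 * c := e6
  have b7 : t (j + 7) = 11 * c := e7
  have f0 : findProb (1 / 2) t d (j + 0) = 1 := findProb_end (by rw [e1]; linarith)
  have g0 : passTime t d (j + 0) = T + 0 * c + (d - 0 * c) := by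
    unfold passTime; rw [s0, b0, abs_of_nonneg (by linarith)]; try ring
  have hp := pot4 (c := c) (d := d) (by linarith) (by linarith) hc
  unfold bracket
  rw [hp, f0, g0]
  norm_num
  try linarith

lemma perL9 {t : ℕ → ℝ} {j : ℕ} {c d T : ℝ} (hc : 0 < c) (ht : Per t j c T) (h1 : 17 * c < d) (h2 : d < 20 * c) :
    bracket (1 / 2) t d j (nextPot c d T) ≤ T + pot c d := by
  obtain ⟨⟨e0, e1, e2, e3, e4, e5, e6, e7, e8⟩, ⟨s0, s1, s2, s3, s4, s5, s6, s7⟩⟩ := ht
  have b0 : t (j + 0) = 0 * c := e0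
  have b1 : t (j + 1) = 17 * c := e1
  have b2 : t (j + 2) = 15 * c := e2
  have b3 : t (j + 3) = 30 * c := e3
  have b4 : t (j + 4) = 17 * c := e4
  have b5 : t (j + 5) = 20 * c := e5
  have b6 : t (j + 6) = 10 * c := e6
  have b7 : t (j + 7) = 11 * c := e7
  have f0 : findProb (1 / 2) t d (j + 0) = 0 := by
    refine findProb_no ?_ ?_
    · rw [e1]; intro h; linarith
    · unfold Passes
      rw [b0, e1]; rintro (⟨h3, h4⟩ | ⟨h3, h4⟩) <;> linarith
  have f1 : findProb (1 / 2) t d (j + 1) = 0 := by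
    refine findProb_no ?_ ?_
    · rw [e2]; intro h; linarith
    · unfold Passes
      rw [b1, e2]; rintro (⟨h3, h4⟩ | ⟨h3, h4⟩) <;> linarith
  have f2 : findProb (1 / 2) t d (j + 2) = 1 / 2 :=
    findProb_pass (Or.inl ⟨by rw [b2]; linarith, by rw [e3]; linarith⟩)
  have g2 : passTime t d (j + 2) = T + 19 * c + (d - 15 * c) := by
    unfold passTime; rw [s2, b2, abs_of_nonneg (by linarith)]; try ring
  have f3 : findProb (1 / 2) t d (j + 3) = 1 / 2 :=
    findProb_pass (Or.inr ⟨by rw [e4]; linarith, by rw [b3]; linarith⟩)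
  have g3 : passTime t d (j + 3) = T + 34 * c + (30 * c - d) := by
    unfold passTime; rw [s3, b3, abs_of_nonpos (by linarith)]; try ring
  have f4 : findProb (1 / 2) t d (j + 4) = 1 / 2 :=
    findProb_pass (Or.inl ⟨by rw [b4]; linarith, by rw [e5]; linarith⟩)
  have g4 : passTime t d (j + 4) = T + 47 * c + (d - 17 * c) := by
    unfold passTime; rw [s4, b4, abs_of_nonneg (by linarith)]; try ring
  have f5 : findProb (1 / 2) t d (j + 5) = 1 / 2 :=
    findProb_pass (Or.inr ⟨by rw [e6]; linarith, by rw [b5]; linarith⟩)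
  have g5 : passTime t d (j + 5) = T + 50 * c + (20 * c - d) := by
    unfold passTime; rw [s5, b5, abs_of_nonpos (by linarith)]; try ring
  have f6 : findProb (1 / 2) t d (j + 6) = 0 := by
    refine findProb_no ?_ ?_
    · rw [e7]; intro h; linarith
    · unfold Passes
      rw [b6, e7]; rintro (⟨h3, h4⟩ | ⟨h3, h4⟩) <;> linarith
  have f7 : findProb (1 / 2) t d (j + 7) = 0 := by
    refine findProb_no ?_ ?_
    · rw [e8]; intro h; linarith
    · unfold Passes
      rw [b7, e8]; rintro (⟨h3, h4⟩ | ⟨h3, h4⟩) <;> linarith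
  have hp := pot5 (c := c) (d := d) (by linarith) (by linarith) hc
  have hn := nextPot1 (c := c) (d := d) (T := T) (by linarith)
  unfold bracket
  rw [hp, f0, f1, f2, g2, f3, g3, f4, g4, f5, g5, f6, f7, hn]
  norm_num
  try linarith

lemma perL10 {t : ℕ → ℝ} {j : ℕ} {c d T : ℝ} (hc : 0 < c) (ht : Per t j c T) (h1 : d = 20 * c) :
    bracket (1 / 2) t d j (nextPot c d T) ≤ T + pot c d := by
  obtain ⟨⟨e0, e1, e2, e3, e4, e5, e6, e7, e8⟩, ⟨s0, s1, s2, s3, s4, s5, s6, s7⟩⟩ := ht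
  have b0 : t (j + 0) = 0 * c := e0
  have b1 : t (j + 1) = 17 * c := e1
  have b2 : t (j + 2) = 15 * c := e2
  have b3 : t (j + 3) = 30 * c := e3
  have b4 : t (j + 4) = 17 * c := e4
  have b5 : t (j + 5) = 20 * c := e5
  have b6 : t (j + 6) = 10 * c := e6
  have b7 : t (j + 7) = 11 * c := e7
  have f0 : findProb (1 / 2) t d (j + 0) = 0 := by
    refine findProb_no ?_ ?_
    · rw [e1]; intro h; linarith
    · unfold Passes
      rw [b0, e1]; rintro (⟨h3, h4⟩ | ⟨h3, h4⟩) <;> linarith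
  have f1 : findProb (1 / 2) t d (j + 1) = 0 := by
    refine findProb_no ?_ ?_
    · rw [e2]; intro h; linarith
    · unfold Passes
      rw [b1, e2]; rintro (⟨h3, h4⟩ | ⟨h3, h4⟩) <;> linarith
  have f2 : findProb (1 / 2) t d (j + 2) = 1 / 2 :=
    findProb_pass (Or.inl ⟨by rw [b2]; linarith, by rw [e3]; linarith⟩)
  have g2 : passTime t d (j + 2) = T + 19 * c + (d - 15 * c) := by
    unfold passTime; rw [s2, b2, abs_of_nonneg (by linarith)]; try ring
  have f3 : findProb (1 / 2) t d (j + 3) = 1 / 2 :=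
    findProb_pass (Or.inr ⟨by rw [e4]; linarith, by rw [b3]; linarith⟩)
  have g3 : passTime t d (j + 3) = T + 34 * c + (30 * c - d) := by
    unfold passTime; rw [s3, b3, abs_of_nonpos (by linarith)]; try ring
  have f4 : findProb (1 / 2) t d (j + 4) = 1 := findProb_end (by rw [e5]; linarith)
  have g4 : passTime t d (j + 4) = T + 47 * c + (d - 17 * c) := by
    unfold passTime; rw [s4, b4, abs_of_nonneg (by linarith)]; try ring
  have hp := pot5 (c := c) (d := d) (by linarith) (by linarith) hc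
  unfold bracket
  rw [hp, f0, f1, f2, g2, f3, g3, f4, g4]
  norm_num
  try linarith

lemma perL11 {t : ℕ → ℝ} {j : ℕ} {c d T : ℝ} (hc : 0 < c) (ht : Per t j c T) (h1 : 20 * c < d) (h2 : d ≤ 22 * c) :
    bracket (1 / 2) t d j (nextPot c d T) ≤ T + pot c d := by
  obtain ⟨⟨e0, e1, e2, e3, e4, e5, e6, e7, e8⟩, ⟨s0, s1, s2, s3, s4, s5, s6, s7⟩⟩ := ht
  have b0 : t (j + 0) = 0 * c := e0
  have b1 : t (j + 1) = 17 * c := e1
  have b2 : t (j + 2) = 15 * c := e2
  have b3 : t (j + 3) = 30 * c := e3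
  have b4 : t (j + 4) = 17 * c := e4
  have b5 : t (j + 5) = 20 * c := e5
  have b6 : t (j + 6) = 10 * c := e6
  have b7 : t (j + 7) = 11 * c := e7
  have f0 : findProb (1 / 2) t d (j + 0) = 0 := by
    refine findProb_no ?_ ?_
    · rw [e1]; intro h; linarith
    · unfold Passes
      rw [b0, e1]; rintro (⟨h3, h4⟩ | ⟨h3, h4⟩) <;> linarith
  have f1 : findProb (1 / 2) t d (j + 1) = 0 := by
    refine findProb_no ?_ ?_
    · rw [e2]; intro h; linarith
    · unfold Passes
      rw [b1, e2]; rintro (⟨h3, h4⟩ | ⟨h3, h4⟩) <;> linarith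
  have f2 : findProb (1 / 2) t d (j + 2) = 1 / 2 :=
    findProb_pass (Or.inl ⟨by rw [b2]; linarith, by rw [e3]; linarith⟩)
  have g2 : passTime t d (j + 2) = T + 19 * c + (d - 15 * c) := by
    unfold passTime; rw [s2, b2, abs_of_nonneg (by linarith)]; try ring
  have f3 : findProb (1 / 2) t d (j + 3) = 1 / 2 :=
    findProb_pass (Or.inr ⟨by rw [e4]; linarith, by rw [b3]; linarith⟩)
  have g3 : passTime t d (j + 3) = T + 34 * c + (30 * c - d) := by
    unfold passTime; rw [s3, b3, abs_of_nonpos (by linarith)]; try ring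
  have f4 : findProb (1 / 2) t d (j + 4) = 0 := by
    refine findProb_no ?_ ?_
    · rw [e5]; intro h; linarith
    · unfold Passes
      rw [b4, e5]; rintro (⟨h3, h4⟩ | ⟨h3, h4⟩) <;> linarith
  have f5 : findProb (1 / 2) t d (j + 5) = 0 := by
    refine findProb_no ?_ ?_
    · rw [e6]; intro h; linarith
    · unfold Passes
      rw [b5, e6]; rintro (⟨h3, h4⟩ | ⟨h3, h4⟩) <;> linarith
  have f6 : findProb (1 / 2) t d (j + 6) = 0 := by
    refine findProb_no ?_ ?_
    · rw [e7]; intro h; linarith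
    · unfold Passes
      rw [b6, e7]; rintro (⟨h3, h4⟩ | ⟨h3, h4⟩) <;> linarith
  have f7 : findProb (1 / 2) t d (j + 7) = 0 := by
    refine findProb_no ?_ ?_
    · rw [e8]; intro h; linarith
    · unfold Passes
      rw [b7, e8]; rintro (⟨h3, h4⟩ | ⟨h3, h4⟩) <;> linarith
  have hp := pot6 (c := c) (d := d) (by linarith) (by linarith) hc
  have hn := nextPot2 (c := c) (d := d) (T := T) (by linarith) (by linarith)
  unfold bracket
  rw [hp, f0, f1, f2, g2, f3, g3, f4, f5, f6, f7, hn]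
  norm_num
  try linarith

lemma perL12 {t : ℕ → ℝ} {j : ℕ} {c d T : ℝ} (hc : 0 < c) (ht : Per t j c T) (h1 : 22 * c < d) (h2 : d < 30 * c) :
    bracket (1 / 2) t d j (nextPot c d T) ≤ T + pot c d := by
  obtain ⟨⟨e0, e1, e2, e3, e4, e5, e6, e7, e8⟩, ⟨s0, s1, s2, s3, s4, s5, s6, s7⟩⟩ := ht
  have b0 : t (j + 0) = 0 * c := e0
  have b1 : t (j + 1) = 17 * c := e1
  have b2 : t (j + 2) = 15 * c := e2
  have b3 : t (j + 3) = 30 * c := e3
  have b4 : t (j + 4) = 17 * c := e4
  have b5 : t (j + 5) = 20 * c := e5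
  have b6 : t (j + 6) = 10 * c := e6
  have b7 : t (j + 7) = 11 * c := e7
  have f0 : findProb (1 / 2) t d (j + 0) = 0 := by
    refine findProb_no ?_ ?_
    · rw [e1]; intro h; linarith
    · unfold Passes
      rw [b0, e1]; rintro (⟨h3, h4⟩ | ⟨h3, h4⟩) <;> linarith
  have f1 : findProb (1 / 2) t d (j + 1) = 0 := by
    refine findProb_no ?_ ?_
    · rw [e2]; intro h; linarith
    · unfold Passes
      rw [b1, e2]; rintro (⟨h3, h4⟩ | ⟨h3, h4⟩) <;> linarith
  have f2 : findProb (1 / 2) t d (j + 2) = 1 / 2 :=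
    findProb_pass (Or.inl ⟨by rw [b2]; linarith, by rw [e3]; linarith⟩)
  have g2 : passTime t d (j + 2) = T + 19 * c + (d - 15 * c) := by
    unfold passTime; rw [s2, b2, abs_of_nonneg (by linarith)]; try ring
  have f3 : findProb (1 / 2) t d (j + 3) = 1 / 2 :=
    findProb_pass (Or.inr ⟨by rw [e4]; linarith, by rw [b3]; linarith⟩)
  have g3 : passTime t d (j + 3) = T + 34 * c + (30 * c - d) := by
    unfold passTime; rw [s3, b3, abs_of_nonpos (by linarith)]; try ring
  have f4 : findProb (1 / 2) t d (j + 4) = 0 := by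
    refine findProb_no ?_ ?_
    · rw [e5]; intro h; linarith
    · unfold Passes
      rw [b4, e5]; rintro (⟨h3, h4⟩ | ⟨h3, h4⟩) <;> linarith
  have f5 : findProb (1 / 2) t d (j + 5) = 0 := by
    refine findProb_no ?_ ?_
    · rw [e6]; intro h; linarith
    · unfold Passes
      rw [b5, e6]; rintro (⟨h3, h4⟩ | ⟨h3, h4⟩) <;> linarith
  have f6 : findProb (1 / 2) t d (j + 6) = 0 := by
    refine findProb_no ?_ ?_
    · rw [e7]; intro h; linarith
    · unfold Passes
      rw [b6, e7]; rintro (⟨h3, h4⟩ | ⟨h3, h4⟩) <;> linarith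
  have f7 : findProb (1 / 2) t d (j + 7) = 0 := by
    refine findProb_no ?_ ?_
    · rw [e8]; intro h; linarith
    · unfold Passes
      rw [b7, e8]; rintro (⟨h3, h4⟩ | ⟨h3, h4⟩) <;> linarith
  have hp := pot7 (c := c) (d := d) (by linarith) (by linarith) hc
  have hn := nextPot3 (c := c) (d := d) (T := T) (by linarith) (by linarith) hc
  unfold bracket
  rw [hp, f0, f1, f2, g2, f3, g3, f4, f5, f6, f7, hn]
  norm_num
  try linarith

lemma perL13 {t : ℕ → ℝ} {j : ℕ} {c d T : ℝ} (hc : 0 < c) (ht : Per t j c T) (h1 : d = 30 * c) :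
    bracket (1 / 2) t d j (nextPot c d T) ≤ T + pot c d := by
  obtain ⟨⟨e0, e1, e2, e3, e4, e5, e6, e7, e8⟩, ⟨s0, s1, s2, s3, s4, s5, s6, s7⟩⟩ := ht
  have b0 : t (j + 0) = 0 * c := e0
  have b1 : t (j + 1) = 17 * c := e1
  have b2 : t (j + 2) = 15 * c := e2
  have b3 : t (j + 3) = 30 * c := e3
  have b4 : t (j + 4) = 17 * c := e4
  have b5 : t (j + 5) = 20 * c := e5
  have b6 : t (j + 6) = 10 * c := e6
  have b7 : t (j + 7) = 11 * c := e7
  have f0 : findProb (1 / 2) t d (j + 0) = 0 := by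
    refine findProb_no ?_ ?_
    · rw [e1]; intro h; linarith
    · unfold Passes
      rw [b0, e1]; rintro (⟨h3, h4⟩ | ⟨h3, h4⟩) <;> linarith
  have f1 : findProb (1 / 2) t d (j + 1) = 0 := by
    refine findProb_no ?_ ?_
    · rw [e2]; intro h; linarith
    · unfold Passes
      rw [b1, e2]; rintro (⟨h3, h4⟩ | ⟨h3, h4⟩) <;> linarith
  have f2 : findProb (1 / 2) t d (j + 2) = 1 := findProb_end (by rw [e3]; linarith)
  have g2 : passTime t d (j + 2) = T + 19 * c + (d - 15 * c) := by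
    unfold passTime; rw [s2, b2, abs_of_nonneg (by linarith)]; try ring
  have hp := pot7 (c := c) (d := d) (by linarith) (by linarith) hc
  unfold bracket
  rw [hp, f0, f1, f2, g2]
  norm_num
  try linarith

lemma perOut {t : ℕ → ℝ} {j : ℕ} {c d T : ℝ} (hc : 0 < c) (ht : Per t j c T) (h1 : 30 * c < d)
    (Y : ℝ) : bracket (1 / 2) t d j Y = Y := by
  obtain ⟨⟨e0, e1, e2, e3, e4, e5, e6, e7, e8⟩, -⟩ := ht
  have b0 : t (j + 0) = 0 * c := e0
  have b1 : t (j + 1) = 17 * c := e1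
  have b2 : t (j + 2) = 15 * c := e2
  have b3 : t (j + 3) = 30 * c := e3
  have b4 : t (j + 4) = 17 * c := e4
  have b5 : t (j + 5) = 20 * c := e5
  have b6 : t (j + 6) = 10 * c := e6
  have b7 : t (j + 7) = 11 * c := e7
  have f0 : findProb (1 / 2) t d (j + 0) = 0 := by
    refine findProb_no ?_ ?_
    · rw [e1]; intro h; linarith
    · unfold Passes
      rw [b0, e1]; rintro (⟨h3, h4⟩ | ⟨h3, h4⟩) <;> linarith
  have f1 : findProb (1 / 2) t d (j + 1) = 0 := by
    refine findProb_no ?_ ?_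
    · rw [e2]; intro h; linarith
    · unfold Passes
      rw [b1, e2]; rintro (⟨h3, h4⟩ | ⟨h3, h4⟩) <;> linarith
  have f2 : findProb (1 / 2) t d (j + 2) = 0 := by
    refine findProb_no ?_ ?_
    · rw [e3]; intro h; linarith
    · unfold Passes
      rw [b2, e3]; rintro (⟨h3, h4⟩ | ⟨h3, h4⟩) <;> linarith
  have f3 : findProb (1 / 2) t d (j + 3) = 0 := by
    refine findProb_no ?_ ?_
    · rw [e4]; intro h; linarith
    · unfold Passes
      rw [b3, e4]; rintro (⟨h3, h4⟩ | ⟨h3, h4⟩) <;> linarith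
  have f4 : findProb (1 / 2) t d (j + 4) = 0 := by
    refine findProb_no ?_ ?_
    · rw [e5]; intro h; linarith
    · unfold Passes
      rw [b4, e5]; rintro (⟨h3, h4⟩ | ⟨h3, h4⟩) <;> linarith
  have f5 : findProb (1 / 2) t d (j + 5) = 0 := by
    refine findProb_no ?_ ?_
    · rw [e6]; intro h; linarith
    · unfold Passes
      rw [b5, e6]; rintro (⟨h3, h4⟩ | ⟨h3, h4⟩) <;> linarith
  have f6 : findProb (1 / 2) t d (j + 6) = 0 := by
    refine findProb_no ?_ ?_
    · rw [e7]; intro h; linarith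
    · unfold Passes
      rw [b6, e7]; rintro (⟨h3, h4⟩ | ⟨h3, h4⟩) <;> linarith
  have f7 : findProb (1 / 2) t d (j + 7) = 0 := by
    refine findProb_no ?_ ?_
    · rw [e8]; intro h; linarith
    · unfold Passes
      rw [b7, e8]; rintro (⟨h3, h4⟩ | ⟨h3, h4⟩) <;> linarith
  unfold bracket
  rw [f0, f1, f2, f3, f4, f5, f6, f7]
  ring

end Pool.Agent.Q228.HL
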